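import Pool.Agent.H52.HMS.LBase

/-!
# HMS box 1: the elimination is not clipped
-/

set_option autoImplicit false

namespace Pool.HMS

open TMLib Finset

private theorem lsca_den {q P : ℚ} (hP : IsI P) (h1 : 1 ≤ P) (hq : IsI (P * q)) :
    (q.den : ℚ) ≤ P := by
  obtain ⟨z, rfl⟩ := hP
  obtain ⟨w, hw⟩ := hq
  have hz : (1 : ℤ) ≤ z := by exact_mod_cast h1
  have e : q = (w : ℚ) / (z : ℚ) := by
    have : (z : ℚ) ≠ 0 := by
      have : z ≠ 0 := by omega
      exact_mod_cast this
    rw [← hw]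
    field_simp
  have hd : ((q.den : ℤ)) ∣ z := by
    rw [e, ← Rat.divInt_eq_div]
    exact Rat.den_dvd w z
  have := Int.le_of_dvd (by omega) hd
  exact_mod_cast this

private theorem lsca_ent (h3 : S_QSZ) (D : ℕ) (G : Mat) (i j : ℕ) :
    |ent G i j| ≤ 2 ^ sz (D, G) := by
  have hs : qb (ent G i j) ≤ sz (D, G) := by
    have h0 : qb 0 ≤ 1 := by
      unfold qb
      simp
    have hp := sz_pos (D, G)
    unfold ent fn
    rw [List.getD_eq_getElem?_getD, List.getD_eq_getElem?_getD]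
    rcases hr : G[i]? with _ | r
    · simp only [Option.getD_none, List.getElem?_nil]
      omega
    · simp only [Option.getD_some]
      rcases he : r[j]? with _ | x
      · simp only [Option.getD_none]
        omega
      · simp only [Option.getD_some]
        have a1 := sz_le_of_mem (List.mem_of_getElem? hr)
        have a2 := sz_le_of_mem (List.mem_of_getElem? he)
        have a3 := qb_le_sz x
        rw [sz_pair]
        simp only
        omega
  exact (h3.abs _).trans (pow_le_pow_right₀ (by norm_num) hs)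

private theorem lsca_fac (k t : ℕ) (hk : k ≤ t) : ((k.factorial : ℕ) : ℚ) * (2 ^ t) ^ k ≤ 2 ^ (2 * t * k) := by
  have h1 : k.factorial ≤ (2 ^ t) ^ k := by
    calc k.factorial ≤ k ^ k := Nat.factorial_le_pow k
      _ ≤ (2 ^ t) ^ k := Nat.pow_le_pow_left (hk.trans (Nat.lt_two_pow_self).le) k
  have h2 : ((k.factorial : ℕ) : ℚ) ≤ (2 ^ t) ^ k := by exact_mod_cast h1
  calc ((k.factorial : ℕ) : ℚ) * (2 ^ t) ^ k ≤ (2 ^ t) ^ k * (2 ^ t) ^ k :=
        mul_le_mul_of_nonneg_right h2 (by positivity)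
    _ = 2 ^ (2 * t * k) := by
        rw [← pow_mul, ← pow_add]
        congr 1
        ring

private theorem lsca_qb (h2 : S_LDET) (h3 : S_QSZ) {D : ℕ} {G : Mat}
    (hL : LDL D (ent G) (mu (ent G)) (rr (ent G))) (hI : ∀ i j, IsI (ent G i j))
    {k i j : ℕ} (hk : k ≤ D) (hi : i < D) (hj : j < D) :
    qb (sch (ent G) k i j) ≤ 2 * sz (D, G) ^ 2 + 1 := by
  have hM1 : (1 : ℚ) ≤ 2 ^ sz (D, G) := one_le_pow₀ (by norm_num)
  obtain ⟨g1, g2, g3, g4⟩ := h2 D (ent G) _ _ (2 ^ sz (D, G)) hL (fun i _ j _ => hI i j) hM1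
    (fun i _ j _ => lsca_ent h3 D G i j) k hk
  obtain ⟨g5, g6⟩ := g4 i hi j hj
  have ht : 2 * (D + 1) ≤ sz (D, G) := by
    rw [sz_pair]
    simp only [sz_nat]
    have := sz_pos G
    omega
  set t := sz (D, G) with htd
  set P := ∏ l ∈ range k, rr (ent G) l with hPd
  set q := sch (ent G) k i j with hqd
  have hden : q.den ≤ 2 ^ (t ^ 2) := by
    have a1 := lsca_den g1 g2 g5
    have a2 := lsca_fac k t (by omega)
    have a3 : (2 : ℚ) ^ (2 * t * k) ≤ 2 ^ (t ^ 2) := by
      apply pow_le_pow_right₀ (by norm_num)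
      nlinarith
    have a4 : (q.den : ℚ) ≤ 2 ^ (t ^ 2) := by linarith
    exact_mod_cast a4
  have habs : |q| ≤ 2 ^ (t ^ 2) := by
    have a0 : |q| ≤ |P * q| := by
      rw [abs_mul, abs_of_nonneg (by linarith : (0 : ℚ) ≤ P)]
      exact le_mul_of_one_le_left (abs_nonneg _) g2
    have a2 := lsca_fac (k + 1) t (by omega)
    have a3 : (2 : ℚ) ^ (2 * t * (k + 1)) ≤ 2 ^ (t ^ 2) := by
      apply pow_le_pow_right₀ (by norm_num)
      nlinarith
    linarith
  have := h3.den q (t ^ 2) (t ^ 2) habs hden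
  omega

private theorem lsca_sz (h2 : S_LDET) (h3 : S_QSZ) {D : ℕ} {G : Mat}
    (hL : LDL D (ent G) (mu (ent G)) (rr (ent G))) (hI : ∀ i j, IsI (ent G i j))
    {k : ℕ} (hk : k ≤ D) : sz (k, tabM D D (sch (ent G) k)) ≤ kS D G := by
  have ht : 2 * (D + 1) ≤ sz (D, G) := by
    rw [sz_pair]
    simp only [sz_nat]
    have := sz_pos G
    omega
  have hrow : ∀ r ∈ tabM D D (sch (ent G) k), sz r ≤ 1 + D * (1 + (7 + 8 * (2 * sz (D, G) ^ 2 + 1))) := by
    intro r hr
    unfold tabM at hr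
    rw [List.mem_map] at hr
    obtain ⟨i, hi, rfl⟩ := hr
    refine sz_list_le _ _ _ (length_tab _ _).le ?_
    intro a ha
    unfold tab at ha
    rw [List.mem_map] at ha
    obtain ⟨j, hj, rfl⟩ := ha
    have := lsca_qb h2 h3 hL hI hk (List.mem_range.1 hi) (List.mem_range.1 hj)
    have h7 := sz_rat_le (sch (ent G) k i j)
    omega
  have hmat := sz_list_le (tabM D D (sch (ent G) k)) D _ (length_tabM _ _ _).le hrow
  rw [sz_pair]
  simp only [sz_nat]
  unfold kS
  set t := sz (D, G) with htd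
  obtain ⟨e, he⟩ : ∃ e, t = 2 * (D + 1) + e := ⟨t - 2 * (D + 1), by omega⟩
  have h9 : 1 + D * (1 + (1 + D * (1 + (7 + 8 * (2 * t ^ 2 + 1))))) + 2 * D + 2 ≤ 100 * (t + 1) ^ 4 := by
    have hD : D ≤ t := by omega
    calc 1 + D * (1 + (1 + D * (1 + (7 + 8 * (2 * t ^ 2 + 1))))) + 2 * D + 2
        ≤ 1 + t * (1 + (1 + t * (1 + (7 + 8 * (2 * t ^ 2 + 1))))) + 2 * t + 2 := by gcongr
      _ ≤ 100 * (t + 1) ^ 4 := by
        ring_nf
        nlinarith [Nat.zero_le t, Nat.zero_le (t ^ 2), Nat.zero_le (t ^ 3), Nat.zero_le (t ^ 4)]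
  omega

theorem lsca_thm (_h1 : S_LSCH) (h2 : S_LDET) (h3 : S_QSZ) : S_LSCA := by
  intro D G hL hI
  have key : ∀ k ≤ D, ∃ H : Mat,
      (fun s => clip (kS D G) (0, []) (schStep D s))^[k] (0, G) = (k, H) ∧
      ∀ i < D, ∀ j < D, ent H i j = sch (ent G) k i j := by
    intro k
    induction k with
    | zero => exact fun _ => ⟨G, rfl, fun _ _ _ _ => rfl⟩
    | succ k ih =>
      intro hk
      obtain ⟨H, e1, e2⟩ := ih (by omega)
      have e3 : schStep D (k, H) = (k + 1, tabM D D (sch (ent G) (k + 1))) := by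
        unfold schStep
        simp only [Prod.mk.injEq, true_and]
        unfold tabM tab
        apply List.map_congr_left
        intro i hi
        apply List.map_congr_left
        intro j hj
        rw [List.mem_range] at hi hj
        beta_reduce
        rw [e2 i hi j hj, e2 i hi k (by omega), e2 k (by omega) j hj, e2 k (by omega) k (by omega)]
        rfl
      refine ⟨tabM D D (sch (ent G) (k + 1)), ?_, ?_⟩
      · rw [Function.iterate_succ_apply', e1, e3]
        unfold clip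
        rw [if_pos (lsca_sz h2 h3 hL hI hk)]
      · intro i hi j hj
        rw [ent_tabM, if_pos ⟨hi, hj⟩]
  intro k hk i hi j hj
  obtain ⟨H, e1, e2⟩ := key k hk
  unfold schA
  rw [e1]
  exact e2 i hi j hj

end Pool.HMS
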