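import Pool.Agent.H52.HMS.LBase

/-!
# HMS box 1: termination
-/

set_option autoImplicit false

namespace Pool.HMS

open TMLib Finset

private theorem lter_pot (h1 : S_LGRM) (h2 : S_LDET) {D m : ℕ} {B : Mat} {X : ℚ} {s : Mat × Mat}
    (hV : LVal D m B X) (hI : LInv D m B X s) : 1 ≤ pot D (gr D m B s.1) := by
  obtain ⟨_, _, hint, _, hL⟩ := h1 D m B X s.1 s.2 hV hI.uni
  unfold pot
  have key : ∀ k ∈ range D, 1 ≤ ∏ l ∈ range (k + 1), rr (gr D m B s.1) l := by
    intro k hk
    have hM : ∀ i < D, ∀ j < D, |gr D m B s.1 i j| ≤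
        1 + ∑ i ∈ range D, ∑ j ∈ range D, |gr D m B s.1 i j| := by
      intro i hi j hj
      have e1 : |gr D m B s.1 i j| ≤ ∑ j ∈ range D, |gr D m B s.1 i j| :=
        Finset.single_le_sum (f := fun j => |gr D m B s.1 i j|) (fun _ _ => abs_nonneg _)
          (mem_range.2 hj)
      have e2 : ∑ j ∈ range D, |gr D m B s.1 i j| ≤
          ∑ i ∈ range D, ∑ j ∈ range D, |gr D m B s.1 i j| :=
        Finset.single_le_sum (f := fun i => ∑ j ∈ range D, |gr D m B s.1 i j|)
          (fun _ _ => Finset.sum_nonneg fun _ _ => abs_nonneg _) (mem_range.2 hi)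
      linarith
    have h0 : (1 : ℚ) ≤ 1 + ∑ i ∈ range D, ∑ j ∈ range D, |gr D m B s.1 i j| := by
      have : (0 : ℚ) ≤ ∑ i ∈ range D, ∑ j ∈ range D, |gr D m B s.1 i j| :=
        Finset.sum_nonneg fun _ _ => Finset.sum_nonneg fun _ _ => abs_nonneg _
      linarith
    exact (h2 D _ _ _ _ hL (fun i _ j _ => hint i j) h0 hM (k + 1) (mem_range.1 hk)).2.1
  calc (1 : ℚ) = ∏ k ∈ range D, 1 := by simp
    _ ≤ _ := Finset.prod_le_prod (fun _ _ => zero_le_one) key

private theorem lter_fold {α β : Type} (f : α → β → α) (a : α) (l : List β)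
    (h : ∀ b ∈ l, f a b = a) : l.foldl f a = a := by
  induction l with
  | nil => rfl
  | cons b l ih =>
    rw [List.foldl_cons, h b List.mem_cons_self]
    exact ih fun c hc => h c (List.mem_cons_of_mem _ hc)

private theorem lter_pass {D m : ℕ} {B : Mat} {t : Mat × Mat} (h : LRed D (gr D m B t.1)) :
    passS D m B t = t := by
  unfold passS
  apply lter_fold
  rintro ⟨i, j⟩ hp
  unfold pairs at hp
  simp only [List.mem_flatMap, List.mem_map, List.mem_reverse, List.mem_range] at hp
  obtain ⟨i', hi', j', hj', he⟩ := hp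
  cases he
  unfold srS
  exact if_pos (h.red i hi' j hj')

private theorem lter_bad {D m : ℕ} {B : Mat} {t : Mat × Mat} (h : LRed D (gr D m B t.1)) :
    swS D m B t = t := by
  have hb : badS D m B t = [] := by
    unfold badS
    rw [List.filter_eq_nil_iff]
    intro k hk
    rw [List.mem_range] at hk
    have := h.lov k (by omega)
    unfold rr at this
    simpa using this
  unfold swS
  rw [hb]

theorem lter_thm (h1 : S_LGRM) (h2 : S_LDET) (_h3 : S_LPAS) (h4 : S_LMAC) : S_LTER := by
  intro D m B X s N hV hI hp
  induction N generalizing s with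
  | zero =>
    exfalso
    have := lter_pot h1 h2 hV hI
    rw [pow_zero] at hp
    linarith
  | succ N ih =>
    obtain ⟨hI', hc⟩ := h4 D m B X s hV hI
    rcases hc with hc | hc
    · have e1 : macS D m B s = passS D m B s := by
        unfold macS
        exact lter_bad hc
      have e2 : ∀ n, (macS D m B)^[n] (passS D m B s) = passS D m B s := by
        intro n
        induction n with
        | zero => rfl
        | succ n ihn =>
          rw [Function.iterate_succ_apply]
          have : macS D m B (passS D m B s) = passS D m B s := by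
            unfold macS
            rw [lter_pass hc]
            exact lter_bad hc
          rw [this, ihn]
      rw [Function.iterate_succ_apply, e1, e2, lter_pass hc]
      rw [e1] at hI'
      exact ⟨hI', hc⟩
    · rw [Function.iterate_succ_apply]
      refine ih (macS D m B s) hI' ?_
      rw [pow_succ] at hp
      linarith

end Pool.HMS
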